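import Pool.Agent.ApC.OrdProj
import Pool.Agent.ECD.PcFin

/-!
# Package OrdG-Base: Sylow subgroups with short series

*Statement.* `Φ` a family of groups with definable products, `l` definable with prime values, and a Sylow
`l u`-subgroup of `Φ.G u` has a subnormal series of length `R` with cyclic factors, for all `u`. Then the
`l`-part of the order is definable.

*Proof.* Let `y u` be the least positive `y` with `CM ⊤ R y` (`ECD/PcCard.lean`; `cm_card`: the order is
such a `y`). It is definable: see the proof of `GFam.card_sub` in `ECD/PcFin.lean` (`GFam.cm_def` with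
`H u = ⊤`, `DFun.ofGraph` with the bound `Φ.N + 1`). It divides `#G`: `#G % y` satisfies the same
condition (`CM` is about common multiples), and is `< y`. And `#P` divides `y` for the given Sylow
subgroup `P` (as in the proof of `card_dvd_of_cm` in `ECD/PcCard.lean`). So `y` and `#G` have the same
`l`-part (`Sylow.card_eq_multiplicity`), and `ordproj_def` (`ApC/OrdProj.lean`) gives the claim. ∎

Difficulty: 0.9 h.
-/

set_option autoImplicit false

namespace Pool.Agent.OrdG

open Finset Pool.Agent.Grz Pool.Agent.GAvg Pool.Agent.PTr Pool.Agent.MTr Pool.Agent.LPC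
  Pool.Agent.ECD

open scoped Classical in
private theorem exists_cm {G : Type*} [Group G] [Finite G] (R : ℕ) :
    ∃ y : ℕ, 0 < y ∧ CM (⊤ : Subgroup G) R y :=
  ⟨Nat.card (⊤ : Subgroup G), Nat.card_pos, cm_card ⊤ R⟩

open scoped Classical in
/-- the least positive common multiple -/
private noncomputable def lcmR (G : Type*) [Group G] [Finite G] (R : ℕ) : ℕ :=
  Nat.find (exists_cm (G := G) R)

private theorem lcmR_spec (G : Type*) [Group G] [Finite G] (R : ℕ) :
    0 < lcmR G R ∧ CM (⊤ : Subgroup G) R (lcmR G R) := by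
  classical
  exact Nat.find_spec (exists_cm (G := G) R)

private theorem lcmR_min {G : Type*} [Group G] [Finite G] {R y : ℕ} (h1 : 0 < y)
    (h2 : CM (⊤ : Subgroup G) R y) : lcmR G R ≤ y := by
  classical
  exact Nat.find_min' (exists_cm (G := G) R) ⟨h1, h2⟩

private theorem lcmR_dvd (G : Type*) [Group G] [Finite G] (R : ℕ) :
    lcmR G R ∣ Nat.card G := by
  have h1 := lcmR_spec G R
  have h2 := cm_card (⊤ : Subgroup G) R
  rw [Subgroup.card_top] at h2
  by_contra h3
  have h4 : 0 < Nat.card G % lcmR G R := by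
    rcases Nat.eq_zero_or_pos (Nat.card G % lcmR G R) with h | h
    · exact absurd (Nat.dvd_of_mod_eq_zero h) h3
    · exact h
  have h5 : CM (⊤ : Subgroup G) R (Nat.card G % lcmR G R) := fun g m hg hm =>
    (Nat.dvd_mod_iff (h1.2 g m hg hm)).2 (h2 g m hg hm)
  exact absurd (Nat.mod_lt _ h1.1) (not_lt.2 (lcmR_min h4 h5))

private theorem lcmR_iff (G : Type*) [Group G] [Finite G] (R y : ℕ) :
    y = lcmR G R ↔ (0 < y ∧ CM (⊤ : Subgroup G) R y) ∧
      ∀ y', y' ≤ y → (y' < y → 0 < y' → ¬ CM (⊤ : Subgroup G) R y') := by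
  constructor
  · rintro rfl
    refine ⟨lcmR_spec G R, fun y' _ h1 h2 h3 => ?_⟩
    exact absurd (lcmR_min h2 h3) (not_le.2 h1)
  · rintro ⟨⟨h1, h2⟩, h3⟩
    have h4 := lcmR_min h1 h2
    by_contra h5
    exact h3 _ h4 (lt_of_le_of_ne h4 (Ne.symm h5)) (lcmR_spec G R).1 (lcmR_spec G R).2

private theorem lcmR_fact {G : Type*} [Group G] [Finite G] {R l : ℕ} (hl : l.Prime)
    (h : ∃ P : Sylow l G, PCL R (P : Subgroup G)) :
    (lcmR G R).factorization l = (Nat.card G).factorization l := by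
  have : Fact l.Prime := ⟨hl⟩
  have hy := lcmR_spec G R
  obtain ⟨P, hP⟩ := h
  obtain ⟨g, m, h1, h2, -⟩ := pcl_data R (P : Subgroup G) hP
  obtain ⟨P', h3, h4, -⟩ := pd_subgroup g m R h1
  have h5 : P' = (P : Subgroup G) := by
    ext x
    rw [h3, h2]
  have h6 : Nat.card P ∣ lcmR G R := by
    have h8 := hy.2 g m (fun j _ => Subgroup.mem_top _) h1
    rw [← h4, h5] at h8
    exact h8
  rw [Sylow.card_eq_multiplicity] at h6
  refine le_antisymm ?_ ?_
  · exact (Nat.factorization_le_iff_dvd hy.1.ne' Nat.card_pos.ne').2 (lcmR_dvd G R) l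
  · exact (hl.pow_dvd_iff_le_factorization hy.1.ne').1 h6

theorem base_def {n : ℕ} (Φ : GFam n) {l : (Fin n → ℕ) → ℕ} (hl : DFun n l)
    (hp : ∀ u, (l u).Prime) (R : ℕ)
    (h : ∀ u, ∃ P : Sylow (l u) (Φ.G u), PCL R (P : Subgroup (Φ.G u))) :
    DFun n (fun u => l u ^ (Nat.card (Φ.G u)).factorization (l u)) := by
  have hσ1 : ∀ i, DFun (n + 1) (fun w : Fin (n + 1) → ℕ => w (Fin.succ i)) :=
    fun i => DFun.proj _
  have hσ2 : ∀ i, DFun (n + 1 + 1) (fun w : Fin (n + 1 + 1) → ℕ => w (Fin.succ (Fin.succ i))) :=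
    fun i => DFun.proj _
  have h1 : Delta0 (n + 1) (fun w => CM (⊤ : Subgroup (Φ.G (fun j => w j.succ))) R (w 0)) :=
    Φ.cm_def (σ := fun i w => w (Fin.succ i)) hσ1
      (H := fun w => (⊤ : Subgroup (Φ.G (fun j => w j.succ))))
      ((Delta0.leFun (DFun.const 0) (DFun.const 0)).of_iff fun w => by simp) R (DFun.proj 0)
  have h2 : Delta0 (n + 1 + 1)
      (fun w => CM (⊤ : Subgroup (Φ.G (fun j => w j.succ.succ))) R (w 0)) :=
    Φ.cm_def (σ := fun i w => w (Fin.succ (Fin.succ i))) hσ2
      (H := fun w => (⊤ : Subgroup (Φ.G (fun j => w j.succ.succ))))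
      ((Delta0.leFun (DFun.const 0) (DFun.const 0)).of_iff fun w => by simp) R (DFun.proj 0)
  have h3 : DFun n (fun u => lcmR (Φ.G u) R) := by
    refine DFun.ofGraph (b := fun u => Φ.N u + 1) (Φ.hN.add (DFun.const 1)) (fun u => ?_)
      ((((Delta0.ltFun (DFun.const 0) (DFun.proj 0)).and h1).and
        (Delta0.ballFun (P := fun y' w => y' < w 0 → 0 < y' →
            ¬ CM (⊤ : Subgroup (Φ.G (fun j => w j.succ))) R y')
          (DFun.proj 0) ((Delta0.ltFun (DFun.proj 0) (DFun.proj 1)).imp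
            ((Delta0.ltFun (DFun.const 0) (DFun.proj 0)).imp h2.not)))).of_iff fun w =>
              lcmR_iff _ _ _)
    have h4 := lcmR_min (G := Φ.G u) (R := R) Nat.card_pos (cm_card (⊤ : Subgroup (Φ.G u)) R)
    rw [Subgroup.card_top] at h4
    exact h4.trans (Φ.card_le _)
  have h5 := Pool.Agent.ApC.ordproj_def hl h3
  have e : (fun u => l u ^ (Nat.card (Φ.G u)).factorization (l u)) =
      fun u => l u ^ (lcmR (Φ.G u) R).factorization (l u) := by
    funext u
    rw [lcmR_fact (hp u) (h u)]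
  rw [e]
  exact h5

end Pool.Agent.OrdG
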