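import Pool.Agent.LRch.PclTools
import Pool.Agent.ECD.PcCard

/-!
# Orders of definable groups: definitions

`EL l G`: the elements of `l`-power order, `EP l G`: those of order prime to `l`, `St T` the
stabiliser of a set under left multiplication. For `T = EL l G` it is the largest normal
`l`-subgroup `OL l G`, for `T = EP l G` the largest normal subgroup `OP l G` of order prime to `l`
(no group theory is needed to see this, and the definition is a bounded formula). `SL R l s G`: the
group `G` has a normal series of length `s` with factors that are `l`-groups or have order prime to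
`l`, below a quotient whose Sylow `l`-subgroups have a subnormal series of length `R` with cyclic
factors. `LL R l s G`: the canonical version.
-/

set_option autoImplicit false

namespace Pool.Agent.OrdG

open Pool.Agent.ECD

/-- the elements of `l`-power order -/
def EL (l : ℕ) (G : Type) [Group G] : Set G := {t | ∃ k, orderOf t = l ^ k}

/-- the elements of order prime to `l` -/
def EP (l : ℕ) (G : Type) [Group G] : Set G := {t | ¬ l ∣ orderOf t}

/-- the stabiliser of `T` under left multiplication -/
def St {G : Type} [Group G] (T : Set G) : Subgroup G where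
  carrier := {x | ∀ t, x * t ∈ T ↔ t ∈ T}
  one_mem' t := by rw [one_mul]
  mul_mem' {x y} hx hy t := by
    rw [mul_assoc]
    exact (hx _).trans (hy _)
  inv_mem' {x} hx t := by
    have h := hx (x⁻¹ * t)
    rw [mul_inv_cancel_left] at h
    exact h.symm

/-- the largest normal `l`-subgroup -/
def OL (l : ℕ) (G : Type) [Group G] : Subgroup G := St (EL l G)

/-- the largest normal subgroup of order prime to `l` -/
def OP (l : ℕ) (G : Type) [Group G] : Subgroup G := St (EP l G)

theorem st_normal {G : Type} [Group G] {T : Set G} (hT : ∀ g t, g * t * g⁻¹ ∈ T ↔ t ∈ T) :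
    (St T).Normal := by
  refine ⟨fun x hx g t => ?_⟩
  have h := hx (g⁻¹ * t * g)
  have h1 := hT g⁻¹ (g * x * g⁻¹ * t)
  have h2 := hT g⁻¹ t
  rw [inv_inv] at h1 h2
  rw [← h1, ← h2, ← h]
  have e : g⁻¹ * (g * x * g⁻¹ * t) * g = x * (g⁻¹ * t * g) := by group
  rw [e]

theorem orderOf_conj' {G : Type} [Group G] (g t : G) : orderOf (g * t * g⁻¹) = orderOf t := by
  have h := orderOf_injective (MulAut.conj g).toMonoidHom (MulAut.conj g).injective t
  exact h

instance OL_normal (l : ℕ) (G : Type) [Group G] : (OL l G).Normal :=
  st_normal fun g t => by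
    simp only [EL, Set.mem_ofPred_eq]
    rw [orderOf_conj']

instance OP_normal (l : ℕ) (G : Type) [Group G] : (OP l G).Normal :=
  st_normal fun g t => by
    simp only [EP, Set.mem_ofPred_eq]
    rw [orderOf_conj']

/-- one step down -/
abbrev Q1 (l : ℕ) (G : Type) [Group G] : Type := G ⧸ OP l G

/-- two steps down -/
abbrev Q2 (l : ℕ) (G : Type) [Group G] : Type := Q1 l G ⧸ OL l (Q1 l G)

/-- A normal series of length `s` whose factors are `l`-groups or have order prime to `l`, below a
quotient in which a Sylow `l`-subgroup has a subnormal series of length `R` with cyclic factors. -/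
def SL (R l : ℕ) : ℕ → (G : Type) → [Group G] → Prop
  | 0, G, _ => ∃ P : Sylow l G, PCL R (P : Subgroup G)
  | s + 1, G, _ => ∃ (N : Subgroup G) (_ : N.Normal), (IsPGroup l N ∨ ¬ l ∣ Nat.card N) ∧
      SL R l s (G ⧸ N)

/-- the canonical version -/
def LL (R l : ℕ) : ℕ → (G : Type) → [Group G] → Prop
  | 0, G, _ => ∃ P : Sylow l G, PCL R (P : Subgroup G)
  | s + 1, G, _ => LL R l s (Q2 l G)

end Pool.Agent.OrdG
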