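import Pool.Agent.OrdG.GrpB

/-!
# Package OrdG-GrpC: any normal series gives the canonical one

*Proof.* Induction on `s` (generalise `G`). For `s + 1` let `N` be the normal subgroup of `SL`. The
induction hypothesis gives `LL R l s (G ⧸ N)`, and by `ll_of_surj` we need a surjection
`G ⧸ N → Q2 l G` (`QuotientGroup.lift`), that is, `N` is in the kernel of `G → Q1 l G → Q2 l G`: if
`l ∤ #N` then `N ≤ OP l G` (`le_op`); if `N` is an `l`-group, its image in `Q1 l G` is a normal
`l`-subgroup, so it is in `OL l (Q1 l G)` (`le_ol`). ∎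

Difficulty: 0.5 h.
-/

set_option autoImplicit false

namespace Pool.Agent.OrdG

open Pool.Agent.ECD

theorem ll_of_sl {R l : ℕ} (hl : l.Prime) (s : ℕ) {G : Type} [Group G] [Finite G]
    (h : SL R l s G) : LL R l s G := by
  induction s generalizing G with
  | zero => exact h
  | succ s ih =>
    obtain ⟨N, hN, hNl, hs⟩ := h
    have hker : ∀ x ∈ N, ((QuotientGroup.mk' (OL l (Q1 l G))).comp
        (QuotientGroup.mk' (OP l G))) x = 1 := by
      intro x hx
      rcases hNl with hp | hn
      · have h1 : (N.map (QuotientGroup.mk' (OP l G))).Normal :=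
          hN.map _ (QuotientGroup.mk'_surjective _)
        have h2 : IsPGroup l (N.map (QuotientGroup.mk' (OP l G))) := hp.map _
        have h3 := le_ol hl h1 h2 (Subgroup.mem_map_of_mem _ hx)
        exact (QuotientGroup.eq_one_iff _).2 h3
      · have h1 := le_op hl hN hn hx
        have h2 : QuotientGroup.mk' (OP l G) x = 1 := (QuotientGroup.eq_one_iff _).2 h1
        rw [MonoidHom.comp_apply, h2, map_one]
    refine ll_of_surj hl s (QuotientGroup.lift N ((QuotientGroup.mk' (OL l (Q1 l G))).comp
      (QuotientGroup.mk' (OP l G))) hker) ?_ (ih hs)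
    intro y
    obtain ⟨z, rfl⟩ := QuotientGroup.mk'_surjective _ y
    obtain ⟨x, rfl⟩ := QuotientGroup.mk'_surjective _ z
    exact ⟨(x : G ⧸ N), rfl⟩

end Pool.Agent.OrdG
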