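import Pool.Agent.OrdG.LStep
import Pool.Agent.OrdG.GrpC

/-!
# Package OrdG-Final: orders of definable subgroups

*Proof.* Replace `Φ` by `sub Φ hσ H hH : GFam n` (`ApC/Sub.lean`), so `H u = Φ.G u`. The number `y =
#Φ.G u` is the only `y` with `1 ≤ y ≤ Φ.N + 1` such that for all primes `l ≤ Φ.N + 1` the `l`-parts
of `y` and of `#Φ.G` are equal (`GFam.card_le`; a prime `> Φ.N + 1` divides neither;
`Nat.eq_of_factorization_eq`). For the `l`-part of `#Φ.G` as a function of `(l, u)`: apply
`lpart_ll` to the family `sub Φ (fun i => σ i) ⊤` with one parameter more (`n + 1`, `σ i w = w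
i.succ`) and `l' w = if (w 0).Prime then w 0 else 2` (`DFun.ite`, `delta_prime`), `ll_of_sl`; note
that `⊤` as a group is isomorphic to `Φ.G` (`Subgroup.topEquiv`), `ll_of_surj`. `DFun.ofGraph`,
`Delta0.ballFun`, `ordproj_def`.

Difficulty: 1.0 h.
-/

set_option autoImplicit false

namespace Pool.Agent.OrdG

open Finset Pool.Agent.Grz Pool.Agent.GAvg Pool.Agent.PTr Pool.Agent.MTr Pool.Agent.LPC
  Pool.Agent.ECD

private theorem card_iff_OrdGF {y c N : ℕ} (hc : 0 < c) (hcN : c ≤ N) :
    y = c ↔ (0 < y ∧ y ≤ N) ∧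
      ∀ l, l ≤ N → (l.Prime → l ^ y.factorization l = l ^ c.factorization l) := by
  constructor
  · rintro rfl
    exact ⟨⟨hc, hcN⟩, fun l _ _ => rfl⟩
  · rintro ⟨⟨hy, hyN⟩, h⟩
    refine Nat.eq_of_factorization_eq hy.ne' hc.ne' fun l => ?_
    by_cases hl : l.Prime
    · by_cases hlN : l ≤ N
      · exact Nat.pow_right_injective hl.two_le (h l hlN hl)
      · rw [Nat.factorization_eq_zero_of_lt (lt_of_le_of_lt hyN (not_le.1 hlN)),
          Nat.factorization_eq_zero_of_lt (lt_of_le_of_lt hcN (not_le.1 hlN))]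
    · rw [Nat.factorization_eq_zero_of_not_prime _ hl,
        Nat.factorization_eq_zero_of_not_prime _ hl]

/-- **Orders of definable groups.** -/
theorem card_sl (R s : ℕ) {r n : ℕ} (Φ : GFam r) {σ : Fin r → (Fin n → ℕ) → ℕ}
    (hσ : ∀ i, DFun n (σ i)) {H : ∀ u : Fin n → ℕ, Subgroup (Φ.G (fun i => σ i u))}
    (hH : Delta0 (n + 1) (fun w => Φ.dec (fun i => σ i (fun j => w j.succ)) (w 0) ∈
      H (fun j => w j.succ)))
    (h : ∀ u (l : ℕ), l.Prime → SL R l s (H u)) :
    DFun n (fun u => Nat.card (H u)) := by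
  classical
  have hσ1 : ∀ i, DFun (n + 1) (fun w : Fin (n + 1) → ℕ => σ i (fun j => w j.succ)) :=
    fun i => (hσ i).weak
  have hH1 : Delta0 (n + 1 + 1) (fun w => Φ.dec (fun i => σ i (fun j => w j.succ.succ)) (w 0) ∈
      H (fun j => w j.succ.succ)) :=
    hH.rename (n := n + 1 + 1) (Fin.cons 0 (fun j => j.succ.succ))
  have hl' : DFun (n + 1) (fun w : Fin (n + 1) → ℕ => if (w 0).Prime then w 0 else 2) :=
    DFun.ite (delta_prime (DFun.proj 0)) (DFun.proj 0) (DFun.const 2)
  have hp : ∀ w : Fin (n + 1) → ℕ, (if (w 0).Prime then w 0 else 2).Prime := by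
    intro w
    split_ifs with h1
    · exact h1
    · exact Nat.prime_two
  have hpart : DFun (n + 1) (fun w : Fin (n + 1) → ℕ => (if (w 0).Prime then w 0 else 2) ^
      (Nat.card (H fun j => w j.succ)).factorization (if (w 0).Prime then w 0 else 2)) :=
    lpart_ll R s (Pool.Agent.ApC.sub Φ (σ := fun i w => σ i (fun j => w j.succ)) hσ1
      (fun w => H fun j => w j.succ) hH1) hl' hp (fun w => ll_of_sl (hp w) s (h _ _ (hp w)))
  have hpart2 : DFun (n + 1 + 1) (fun w : Fin (n + 1 + 1) → ℕ =>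
      (if (w 0).Prime then w 0 else 2) ^
      (Nat.card (H fun j => w j.succ.succ)).factorization (if (w 0).Prime then w 0 else 2)) :=
    hpart.comp (n := n + 1 + 1) (h := Fin.cons (fun w => w 0) (fun j w => w j.succ.succ))
      (fun i => by
        refine Fin.cases ?_ (fun j => ?_) i
        · exact DFun.proj 0
        · exact DFun.proj _)
  have hcN : ∀ u : Fin n → ℕ, Nat.card (H u) ≤ Φ.N (fun i => σ i u) + 1 := fun u =>
    (Nat.card_le_card_of_injective _ Subtype.val_injective).trans (Φ.card_le _)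
  have hN : DFun n (fun u => Φ.N (fun i => σ i u) + 1) := (Φ.hN.comp hσ).add (DFun.const 1)
  have hball : Delta0 (n + 1) (fun w : Fin (n + 1) → ℕ =>
      ∀ l, l ≤ Φ.N (fun i => σ i (fun j => w j.succ)) + 1 →
        (l.Prime → l ^ (w 0).factorization l = (if l.Prime then l else 2) ^
          (Nat.card (H fun j => w j.succ)).factorization (if l.Prime then l else 2))) := by
    refine Delta0.ballFun (P := fun l w => l.Prime → l ^ (w 0).factorization l =
      (if l.Prime then l else 2) ^
          (Nat.card (H fun j => w j.succ)).factorization (if l.Prime then l else 2)) hN.weak ?_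
    exact (delta_prime (DFun.proj 0)).imp (Delta0.eqFun
      (Pool.Agent.ApC.ordproj_def (DFun.proj 0) (DFun.proj 1)) hpart2)
  refine DFun.ofGraph hN hcN ((((Delta0.ltFun (DFun.const 0) (DFun.proj 0)).and
    (Delta0.leFun (DFun.proj 0) hN.weak)).and hball).of_iff fun w => ?_)
  rw [card_iff_OrdGF (y := w 0) Nat.card_pos (hcN fun j => w j.succ)]
  refine and_congr Iff.rfl (forall_congr' fun l => imp_congr_right fun _ => ?_)
  refine forall_congr' fun hl => ?_
  rw [if_pos hl]

end Pool.Agent.OrdG
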