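import Pool.Agent.OrdG.Defs

/-!
# Package OrdG-GrpA: the largest normal `l`-subgroup and the largest normal `l'`-subgroup

`G` finite, `l` prime; `St`, `EL`, `EP`, `OL`, `OP` are in `Defs.lean`.

* `ol_sub`, `op_sub`: `x ∈ OL l G`, applied to `t = 1` (`1 ∈ EL`, `1 ∈ EP`), gives `x ∈ EL l G` resp.
  `x ∈ EP l G`.
* `ol_pgroup`: all elements of `OL l G` have `l`-power order. `op_card`: if `l` divides the order there
  is an element of order `l` (`exists_prime_orderOf_dvd_card'`), but `OP l G ⊆ EP l G`.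
* `le_ol`: `N` normal `l`-subgroup, `x ∈ N`. If `orderOf t = l ^ k` then `(x * t) ^ l ^ k ∈ N` (look in
  `G ⧸ N`: the images of `x * t` and `t` are equal), so `(x * t) ^ l ^ (k + j) = 1` for some `j`
  (`IsPGroup`), so `x * t ∈ EL l G` (`Nat.dvd_prime_pow`). Conversely `t = x⁻¹ * (x * t)`.
* `le_op`: `N` normal of order prime to `l`, `x ∈ N`, `l ∤ orderOf t =: a`: `(x * t) ^ a ∈ N`, so
  `(x * t) ^ (a * Nat.card N) = 1`, and `l` does not divide `a * Nat.card N`. Conversely as before.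

Difficulty: 0.8 h.
-/

set_option autoImplicit false

namespace Pool.Agent.OrdG

open Pool.Agent.ECD

variable {l : ℕ} {G : Type} [Group G] [Finite G]

theorem ol_sub {x : G} (hx : x ∈ OL l G) : x ∈ EL l G := by
  have h := hx 1
  rw [mul_one] at h
  refine h.mpr ⟨0, ?_⟩
  rw [orderOf_one, pow_zero]

theorem op_sub (hl : l.Prime) {x : G} (hx : x ∈ OP l G) : x ∈ EP l G := by
  have h := hx 1
  rw [mul_one] at h
  refine h.mpr ?_
  change ¬ l ∣ orderOf (1 : G)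
  rw [orderOf_one, Nat.dvd_one]
  exact hl.ne_one

theorem ol_pgroup (hl : l.Prime) : IsPGroup l (OL l G) := by
  intro g
  obtain ⟨k, hk⟩ := ol_sub g.2
  refine ⟨k, Subtype.ext ?_⟩
  rw [Subgroup.coe_pow, ← hk, pow_orderOf_eq_one, Subgroup.coe_one]

theorem op_card (hl : l.Prime) : ¬ l ∣ Nat.card (OP l G) := by
  intro h
  have : Fact l.Prime := ⟨hl⟩
  obtain ⟨x, hx⟩ := exists_prime_orderOf_dvd_card' l h
  have h1 : ¬ l ∣ orderOf (x : G) := op_sub hl x.2
  apply h1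
  rw [Subgroup.orderOf_coe, hx]

private theorem pow_mem_GrpA {N : Subgroup G} (hN : N.Normal) {x t : G} (hx : x ∈ N) {a : ℕ}
    (ha : t ^ a = 1) : (x * t) ^ a ∈ N := by
  rw [← QuotientGroup.eq_one_iff, QuotientGroup.mk_pow, QuotientGroup.mk_mul,
    (QuotientGroup.eq_one_iff x).mpr hx, one_mul, ← QuotientGroup.mk_pow, ha,
    QuotientGroup.mk_one]

private theorem el_mul_GrpA (hl : l.Prime) {N : Subgroup G} (hN : N.Normal) (h : IsPGroup l N)
    {x t : G} (hx : x ∈ N) (ht : t ∈ EL l G) : x * t ∈ EL l G := by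
  obtain ⟨k, hk⟩ := ht
  have h1 : (x * t) ^ l ^ k ∈ N := pow_mem_GrpA hN hx (by rw [← hk, pow_orderOf_eq_one])
  obtain ⟨j, hj⟩ := h ⟨(x * t) ^ l ^ k, h1⟩
  have h2 : ((x * t) ^ l ^ k) ^ l ^ j = 1 := congrArg Subtype.val hj
  rw [← pow_mul, ← pow_add] at h2
  obtain ⟨m, -, hm⟩ := (Nat.dvd_prime_pow hl).mp (orderOf_dvd_of_pow_eq_one h2)
  exact ⟨m, hm⟩

private theorem ep_mul_GrpA (hl : l.Prime) {N : Subgroup G} (hN : N.Normal)
    (h : ¬ l ∣ Nat.card N) {x t : G} (hx : x ∈ N) (ht : t ∈ EP l G) : x * t ∈ EP l G := by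
  intro hd
  have h1 : (x * t) ^ orderOf t ∈ N := pow_mem_GrpA hN hx (pow_orderOf_eq_one t)
  have h2 : (⟨(x * t) ^ orderOf t, h1⟩ : N) ^ Nat.card N = 1 := pow_card_eq_one'
  have h3 : ((x * t) ^ orderOf t) ^ Nat.card N = 1 := congrArg Subtype.val h2
  rw [← pow_mul] at h3
  rcases hl.dvd_mul.mp (hd.trans (orderOf_dvd_of_pow_eq_one h3)) with h4 | h4
  · exact ht h4
  · exact h h4

theorem le_ol (hl : l.Prime) {N : Subgroup G} (hN : N.Normal) (h : IsPGroup l N) :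
    N ≤ OL l G := by
  intro x hx t
  refine ⟨fun ht => ?_, fun ht => el_mul_GrpA hl hN h hx ht⟩
  have h1 := el_mul_GrpA hl hN h (N.inv_mem hx) ht
  rwa [inv_mul_cancel_left] at h1

theorem le_op (hl : l.Prime) {N : Subgroup G} (hN : N.Normal) (h : ¬ l ∣ Nat.card N) :
    N ≤ OP l G := by
  intro x hx t
  refine ⟨fun ht => ?_, fun ht => ep_mul_GrpA hl hN h hx ht⟩
  have h1 := ep_mul_GrpA hl hN h (N.inv_mem hx) ht
  rwa [inv_mul_cancel_left] at h1

end Pool.Agent.OrdG
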