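import Pool.Agent.OrdG.GrpA

/-!
# Package OrdG-GrpB: the condition `LL` for quotients

`f : G → G'` surjective, `G` finite, `l` prime: `LL R l s G` implies `LL R l s G'`.

*Proof.* Induction on `s` (generalise `G`, `G'`, `f`). `s = 0`: `P` a Sylow `l`-subgroup of `G`; its
image is a Sylow `l`-subgroup of `G'` (`Sylow.mapSurjective`) and `PCL R` is inherited
(`Pool.Agent.LRch.pcl_map`; read its statement). `s + 1`: the image of `OP l G` is a normal subgroup of
`G'` (`Subgroup.Normal.map`) of order prime to `l` (it divides `Nat.card (OP l G)`, `op_card`), so it is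
`≤ OP l G'` (`le_op`): `f` induces a surjection `Q1 l G → Q1 l G'` (`QuotientGroup.map`); the image of
`OL l (Q1 l G)` is a normal `l`-subgroup (`IsPGroup.map`), so it is `≤ OL l (Q1 l G')` (`le_ol`), and we
get a surjection `Q2 l G → Q2 l G'`; induction hypothesis. ∎

Difficulty: 0.8 h.
-/

set_option autoImplicit false

namespace Pool.Agent.OrdG

open Pool.Agent.ECD

theorem ll_of_surj {R l : ℕ} (hl : l.Prime) (s : ℕ) {G G' : Type} [Group G] [Group G'] [Finite G]
    (f : G →* G') (hf : Function.Surjective f) (h : LL R l s G) : LL R l s G' := by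
  have hfact : Fact l.Prime := ⟨hl⟩
  induction s generalizing G G' with
  | zero =>
    have hfin : Finite G' := Finite.of_surjective f hf
    obtain ⟨P, hP⟩ := h
    refine ⟨P.mapSurjective hf, ?_⟩
    rw [Sylow.coe_mapSurjective]
    exact LRch.pcl_map hP f
  | succ s ih =>
    have hfin : Finite G' := Finite.of_surjective f hf
    have h1 : OP l G ≤ (OP l G').comap f := by
      rw [← Subgroup.map_le_iff_le_comap]
      refine le_op hl ((OP_normal l G).map f hf) fun hd => ?_
      exact op_card hl (hd.trans (Subgroup.card_map_dvd (OP l G) f))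
    have hf1 : Function.Surjective (QuotientGroup.map (OP l G) (OP l G') f h1) :=
      QuotientGroup.map_surjective_of_surjective _ _ _
        ((QuotientGroup.mk'_surjective _).comp hf) h1
    have h2 : OL l (Q1 l G) ≤ (OL l (Q1 l G')).comap
        (QuotientGroup.map (OP l G) (OP l G') f h1) := by
      rw [← Subgroup.map_le_iff_le_comap]
      exact le_ol hl ((OL_normal l (Q1 l G)).map _ hf1) ((ol_pgroup hl).map _)
    have hf2 : Function.Surjective (QuotientGroup.map (OL l (Q1 l G)) (OL l (Q1 l G')) _ h2) :=
      QuotientGroup.map_surjective_of_surjective _ _ _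
        ((QuotientGroup.mk'_surjective _).comp hf1) h2
    exact ih _ hf2 h

end Pool.Agent.OrdG
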