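import Pool.Agent.OrdG.GrpA

/-!
# Package OrdG-GrpD: nilpotent and soluble groups

`NS s G`: the group `G` has a normal series of length `s` with nilpotent factors.

* `sl_equiv`: `SL` is invariant under isomorphisms. Induction on `s`: `s = 0`: `Sylow.mapSurjective`
  (or `Sylow.map…`), `Pool.Agent.LRch.pcl_map`; `s + 1`: `N.map e`,
  `QuotientGroup.congr`.
* `sl_ext`: `N` normal in `G` and nilpotent, `SL R l s (G ⧸ N)`: then `SL R l (s + 2) G`. Let
  `N₁ = N ⊓ OP l G` (normal, of order prime to `l`, as it is contained in `OP l G`: `op_card`), and `N₂`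
  the image of `N` in `G ⧸ N₁`. It is an `l`-group: for a prime `q ≠ l` let `Q` be the Sylow
  `q`-subgroup of `N`; it is characteristic in `N` (`N` nilpotent: `Sylow.normal_of_normalizerCondition`,
  `isNilpotent_of_finite_tfae`; `Sylow.characteristic_of_normal`), so its image in `G` is normal
  (`Subgroup.normal_of_characteristic`-like: `ConjAct.normal_of_characteristic_of_normal`), of order
  prime to `l`, so `≤ OP l G` (`le_op`). So the highest power of `q` that divides `#N` divides `#N₁`, and
  `q ∤ #N / #N₁ = #N₂`. So `#N₂` is a power of `l` (`Nat.eq_prime_pow_of_unique_prime_dvd`,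
  `IsPGroup.of_card`). Finally `(G ⧸ N₁) ⧸ N₂ ≃* G ⧸ N` (`QuotientGroup.quotientQuotientEquivQuotient`).
* `sl_of_ns`: induction. `s = 0`: the only Sylow subgroup of the trivial group is `⊥`, `PCL 0`.
* `ns_of_nilpotent`: `N = ⊤`. `ns_of_solvable`: induction on `d`: `N = derivedSeries G d` (for
  `derivedSeries G (d + 1) = ⊥`) is abelian and normal, `derivedSeries (G ⧸ N) d = ⊥`
  (`map_derivedSeries_eq`).

Difficulty: 1.5 h (the parts are independent of each other).
-/

set_option autoImplicit false

namespace Pool.Agent.OrdG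

open Pool.Agent.ECD

/-- a normal series of length `s` with nilpotent factors -/
def NS : ℕ → (G : Type) → [Group G] → Prop
  | 0, G, _ => Subsingleton G
  | s + 1, G, _ => ∃ (N : Subgroup G) (_ : N.Normal), Group.IsNilpotent N ∧ NS s (G ⧸ N)

theorem sl_equiv {R l : ℕ} (hl : l.Prime) (s : ℕ) {G G' : Type} [Group G] [Group G'] [Finite G]
    (e : G ≃* G') (h : SL R l s G) : SL R l s G' := by
  have hl' : Fact l.Prime := ⟨hl⟩
  induction s generalizing G G' with
  | zero =>
    obtain ⟨P, hP⟩ := h
    have he : Function.Surjective (e : G →* G') := e.surjective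
    exact ⟨P.mapSurjective he, Pool.Agent.LRch.pcl_map hP (e : G →* G')⟩
  | succ s ih =>
    obtain ⟨N, hN, h1, h2⟩ := h
    have hn : (N.map (e : G →* G')).Normal := hN.map _ e.surjective
    refine ⟨N.map (e : G →* G'), hn, ?_,
      ih (QuotientGroup.congr N (N.map (e : G →* G')) e rfl) h2⟩
    rcases h1 with h1 | h1
    · exact Or.inl (h1.map (e : G →* G'))
    · refine Or.inr ?_
      have h3 : Nat.card (N.map (e : G →* G')) = Nat.card N :=
        Nat.card_congr (N.equivMapOfInjective (e : G →* G') e.injective).toEquiv.symm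
      rwa [h3]

private theorem prime_part_GrpD {l : ℕ} (hl : l.Prime) {G : Type} [Group G] [Finite G]
    (N : Subgroup G) [N.Normal] (hN : Group.IsNilpotent N) {q : ℕ} (hq : q.Prime) (hql : q ≠ l)
    {x : G} (hx : x ∈ N) {j : ℕ} (hj : orderOf x = q ^ j) : x ∈ OP l G := by
  have hq' : Fact q.Prime := ⟨hq⟩
  let y : N := ⟨x, hx⟩
  have hy : orderOf y = q ^ j := by
    rw [← hj]
    exact (Subgroup.orderOf_coe y).symm
  have h1 : IsPGroup q (Subgroup.zpowers y) := by
    apply IsPGroup.of_card (n := j)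
    rw [Nat.card_zpowers, hy]
  obtain ⟨Q, hQ⟩ := h1.exists_le_sylow
  have hQn : (Q : Subgroup N).Normal :=
    Q.normal_of_normalizerCondition (Group.normalizerCondition_of_isNilpotent (h := hN))
  have hQc : (Q : Subgroup N).Characteristic := Q.characteristic_of_normal hQn
  have hQG : ((Q : Subgroup N).map N.subtype).Normal := ConjAct.normal_of_characteristic_of_normal
  have hcard : ¬ l ∣ Nat.card ((Q : Subgroup N).map N.subtype) := by
    obtain ⟨n, hn⟩ := (IsPGroup.iff_card.1 (Q.isPGroup'.map N.subtype))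
    rw [hn]
    intro h
    exact hql ((Nat.prime_dvd_prime_iff_eq hl hq).1 (hl.dvd_of_dvd_pow h)).symm
  exact le_op hl hQG hcard ⟨y, hQ (Subgroup.mem_zpowers y), rfl⟩

private theorem pow_mem_GrpD {l : ℕ} (hl : l.Prime) {G : Type} [Group G] [Finite G]
    (N : Subgroup G) [N.Normal] (hN : Group.IsNilpotent N) {x : G} (hx : x ∈ N) :
    ∃ k, x ^ l ^ k ∈ N ⊓ OP l G := by
  have key : ∀ r, orderOf (QuotientGroup.mk' (OP l G) x) = r → ∀ q, q.Prime → q ∣ r → q = l := by
    intro r hr q hq hqr
    by_contra hql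
    have h1 : r ∣ orderOf x := by
      rw [← hr]
      exact orderOf_map_dvd _ x
    have h0 : orderOf x ≠ 0 := (orderOf_pos x).ne'
    have hqx : q ∣ orderOf x := hqr.trans h1
    have h2 : orderOf (x ^ (ordCompl[q] (orderOf x))) = q ^ (orderOf x).factorization q := by
      rw [orderOf_pow_of_dvd (Nat.ordCompl_pos q h0).ne' (Nat.ordCompl_dvd (orderOf x) q)]
      exact Nat.div_eq_of_eq_mul_left (Nat.ordCompl_pos q h0)
        (Nat.ordProj_mul_ordCompl_eq_self (orderOf x) q).symm
    have h3 : x ^ (ordCompl[q] (orderOf x)) ∈ OP l G :=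
      prime_part_GrpD hl N hN hq hql (N.pow_mem hx _) h2
    have h4 : r ∣ ordCompl[q] (orderOf x) := by
      rw [← hr]
      apply orderOf_dvd_of_pow_eq_one
      rw [← map_pow]
      exact (QuotientGroup.eq_one_iff _).2 h3
    exact Nat.not_dvd_ordCompl hq h0 (hqr.trans h4)
  have h0 : orderOf (QuotientGroup.mk' (OP l G) x) ≠ 0 := (orderOf_pos _).ne'
  have h1 := Nat.eq_prime_pow_of_unique_prime_dvd h0
    (fun {q} hq hqr => key _ rfl q hq hqr)
  obtain ⟨k, hk⟩ : ∃ k, orderOf (QuotientGroup.mk' (OP l G) x) = l ^ k := ⟨_, h1⟩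
  refine ⟨k, N.pow_mem hx (l ^ k), ?_⟩
  have h2 := pow_orderOf_eq_one (QuotientGroup.mk' (OP l G) x)
  rw [hk, ← map_pow] at h2
  exact (QuotientGroup.eq_one_iff _).1 h2

theorem sl_ext {R l : ℕ} (hl : l.Prime) (s : ℕ) {G : Type} [Group G] [Finite G] (N : Subgroup G)
    [N.Normal] (hN : Group.IsNilpotent N) (h : SL R l s (G ⧸ N)) : SL R l (s + 2) G := by
  have hl' : Fact l.Prime := ⟨hl⟩
  have hn1 : (N ⊓ OP l G).Normal := inferInstance
  have hn2 : (N.map (QuotientGroup.mk' (N ⊓ OP l G))).Normal :=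
    Subgroup.Normal.map inferInstance _ (QuotientGroup.mk'_surjective _)
  refine ⟨N ⊓ OP l G, hn1, Or.inr ?_, N.map (QuotientGroup.mk' (N ⊓ OP l G)), hn2, Or.inl ?_, ?_⟩
  · intro h1
    exact op_card hl (h1.trans (Subgroup.card_dvd_of_le inf_le_right))
  · rintro ⟨_, x, hx, rfl⟩
    obtain ⟨k, hk⟩ := pow_mem_GrpD hl N hN hx
    refine ⟨k, ?_⟩
    apply Subtype.ext
    show (QuotientGroup.mk' (N ⊓ OP l G) x) ^ l ^ k = 1
    rw [← map_pow]
    exact (QuotientGroup.eq_one_iff _).2 hk
  · exact sl_equiv hl s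
      (QuotientGroup.quotientQuotientEquivQuotient (N ⊓ OP l G) N inf_le_left).symm h

theorem sl_of_ns {l : ℕ} (hl : l.Prime) (s : ℕ) {G : Type} [Group G] [Finite G] (h : NS s G) :
    SL 0 l (2 * s) G := by
  induction s generalizing G with
  | zero =>
    have hG : Subsingleton G := h
    obtain ⟨P⟩ := (inferInstance : Nonempty (Sylow l G))
    exact ⟨P, Subgroup.eq_bot_of_subsingleton _⟩
  | succ s ih =>
    obtain ⟨N, hN, h1, h2⟩ := h
    exact sl_ext hl (2 * s) N h1 (ih h2)

theorem ns_of_nilpotent {G : Type} [Group G] (h : Group.IsNilpotent G) : NS 1 G := by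
  refine ⟨⊤, inferInstance, Group.isNilpotent_top.2 h, ?_⟩
  show Subsingleton (G ⧸ (⊤ : Subgroup G))
  exact QuotientGroup.subsingleton_quotient_top

theorem ns_of_solvable (d : ℕ) {G : Type} [Group G] (h : derivedSeries G d = ⊥) : NS d G := by
  induction d generalizing G with
  | zero =>
    have h1 : (⊤ : Subgroup G) = ⊥ := h
    have h2 : Subsingleton (Subgroup G) := subsingleton_of_bot_eq_top h1.symm
    exact Subgroup.subsingleton_iff.1 h2
  | succ d ih =>
    have h1 : ⁅derivedSeries G d, derivedSeries G d⁆ = ⊥ := h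
    have hn : (derivedSeries G d).Normal := inferInstance
    refine ⟨derivedSeries G d, hn, ?_, ?_⟩
    · have hc : ∀ a b : derivedSeries G d, a * b = b * a := by
        intro a b
        have h2 := Subgroup.commutator_eq_bot_iff_le_centralizer.1 h1 a.2
        apply Subtype.ext
        exact ((Subgroup.mem_centralizer_iff.1 h2) b b.2).symm
      let I : CommGroup (derivedSeries G d) :=
        { (inferInstance : Group (derivedSeries G d)) with mul_comm := hc }
      exact @CommGroup.isNilpotent (derivedSeries G d) I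
    · apply ih
      rw [← map_derivedSeries_eq (f := QuotientGroup.mk' (derivedSeries G d))
        (QuotientGroup.mk'_surjective _) d]
      exact QuotientGroup.map_mk'_self _

end Pool.Agent.OrdG
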