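import Pool.Agent.ECD.GOrd

/-!
# Package OrdG-Quo: quotients of a family of groups with definable products

Model: `sub` in `ApC/Sub.lean` (definable subgroups).

The code of a coset is the least code of its elements: `qenc`. With
`Φ.enc`, `Φ.dec` (`ECD/GTools.lean`) we have for `x = mk g`: `z` is the code of `x` iff there is `g'` with
`z = Φ.enc g'`, `g⁻¹ * g' ∈ H u`, and no `z' < z` is such a code.

* `qenc_spec`: there is `g` with `mk g = x` and `Φ.enc _ g = qenc x` (`Nat.find_spec`).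
* `mem`: `z` is a code iff `z` is a code of `Φ` and for all `z' < z` that are codes of `Φ`,
  `(Φ.dec z')⁻¹ * Φ.dec z ∉ H u` (`Φ.gmem`, `Φ.ginv`, `Φ.gmul`, `Φ.gdec`, substitution in `hH`:
  `Delta0.subst`, see how `GFam.cm_def` in `ECD/PcFin.lean` does it; `Delta0.ballFun`).
* `prod1`: given `P u i` in the quotient with definable `qenc`; let
  `g u i = Φ.dec _ (qenc (P u i))`, so `mk (g u i) = P u i` and `Φ.enc (g u i) = qenc (P u i)` is
  definable. By `Φ.prod1` the code of the product `p u` of the `g u i` is definable, and the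
  product of the `P u i` is `mk (p u)` (`map_list_prod` for `QuotientGroup.mk'`). Its code is the least
  `z` that is the code of some `g'` with `(p u)⁻¹ * g' ∈ H u`: `DFun.ofGraph` with the bound `Φ.N`.

Difficulty: 1.2 h.
-/

set_option autoImplicit false

namespace Pool.Agent.OrdG

open Finset Pool.Agent.Grz Pool.Agent.GAvg Pool.Agent.PTr Pool.Agent.MTr Pool.Agent.LPC
  Pool.Agent.ECD

variable {r n : ℕ} (Φ : GFam r) {σ : Fin r → (Fin n → ℕ) → ℕ}

theorem exists_qenc (H : ∀ u : Fin n → ℕ, Subgroup (Φ.G (fun i => σ i u))) (u : Fin n → ℕ)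
    (x : Φ.G (fun i => σ i u) ⧸ H u) :
    ∃ z, ∃ g : Φ.G (fun i => σ i u), (QuotientGroup.mk g : Φ.G (fun i => σ i u) ⧸ H u) = x ∧
      Φ.enc _ g = z :=
  ⟨_, x.out, QuotientGroup.out_eq' x, rfl⟩

open scoped Classical in
/-- the code of a coset: the least code of its elements -/
noncomputable def qenc (H : ∀ u : Fin n → ℕ, Subgroup (Φ.G (fun i => σ i u))) (u : Fin n → ℕ)
    (x : Φ.G (fun i => σ i u) ⧸ H u) : ℕ := Nat.find (exists_qenc Φ H u x)

private theorem qenc_spec (H : ∀ u : Fin n → ℕ, Subgroup (Φ.G (fun i => σ i u)))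
    (u : Fin n → ℕ) (x : Φ.G (fun i => σ i u) ⧸ H u) :
    ∃ g : Φ.G (fun i => σ i u), (QuotientGroup.mk g : Φ.G (fun i => σ i u) ⧸ H u) = x ∧
      Φ.enc _ g = qenc Φ H u x := by
  classical
  have h := Nat.find_spec (exists_qenc Φ H u x)
  unfold qenc
  convert h

private theorem qenc_min (H : ∀ u : Fin n → ℕ, Subgroup (Φ.G (fun i => σ i u)))
    (u : Fin n → ℕ) (x : Φ.G (fun i => σ i u) ⧸ H u) {z : ℕ}
    (hz : ∃ g : Φ.G (fun i => σ i u), (QuotientGroup.mk g : Φ.G (fun i => σ i u) ⧸ H u) = x ∧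
      Φ.enc _ g = z) : qenc Φ H u x ≤ z := by
  classical
  have h := Nat.find_min' (exists_qenc Φ H u x) hz
  unfold qenc
  convert h

private theorem code_iff (H : ∀ u : Fin n → ℕ, Subgroup (Φ.G (fun i => σ i u)))
    (u : Fin n → ℕ) (p : Φ.G (fun i => σ i u)) (z : ℕ) :
    (∃ g : Φ.G (fun i => σ i u), (QuotientGroup.mk g : Φ.G (fun i => σ i u) ⧸ H u) =
      QuotientGroup.mk p ∧ Φ.enc _ g = z) ↔
    ((∃ g, Φ.enc (fun i => σ i u) g = z) ∧ p⁻¹ * Φ.dec _ z ∈ H u) := by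
  constructor
  · rintro ⟨g, h1, rfl⟩
    refine ⟨⟨g, rfl⟩, ?_⟩
    rw [Φ.dec_enc]
    exact QuotientGroup.eq.mp h1.symm
  · rintro ⟨h1, h2⟩
    exact ⟨Φ.dec _ z, (QuotientGroup.eq.mpr h2).symm, Φ.enc_dec h1⟩

private theorem eq_qenc (H : ∀ u : Fin n → ℕ, Subgroup (Φ.G (fun i => σ i u)))
    (u : Fin n → ℕ) (p : Φ.G (fun i => σ i u)) (z : ℕ) :
    z = qenc Φ H u (QuotientGroup.mk p) ↔
    ((∃ g, Φ.enc (fun i => σ i u) g = z) ∧ p⁻¹ * Φ.dec _ z ∈ H u) ∧
      ∀ y, y ≤ z → (y < z → ¬ ((∃ g, Φ.enc (fun i => σ i u) g = y) ∧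
        p⁻¹ * Φ.dec _ y ∈ H u)) := by
  constructor
  · intro h
    refine ⟨(code_iff Φ H u p z).mp ?_, fun y _ hy hc => ?_⟩
    · rw [h]
      exact qenc_spec Φ H u _
    · have h1 := qenc_min Φ H u _ ((code_iff Φ H u p y).mpr hc)
      omega
  · rintro ⟨h1, h2⟩
    have h3 := qenc_min Φ H u _ ((code_iff Φ H u p z).mpr h1)
    by_contra hne
    have h4 : qenc Φ H u (QuotientGroup.mk p) < z := by omega
    exact h2 _ h3 h4 ((code_iff Φ H u p _).mp (qenc_spec Φ H u _))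

private theorem gin {m : ℕ} (H : ∀ u : Fin n → ℕ, Subgroup (Φ.G (fun i => σ i u)))
    (hH : Delta0 (n + 1) (fun w => Φ.dec (fun i => σ i (fun j => w j.succ)) (w 0) ∈
      H (fun j => w j.succ)))
    {τ : Fin n → (Fin m → ℕ) → ℕ} (hτ : ∀ j, DFun m (τ j))
    {g : ∀ u : Fin m → ℕ, Φ.G (fun i => σ i (fun j => τ j u))}
    (hg : DFun m (fun u => Φ.enc _ (g u))) :
    Delta0 m (fun u => g u ∈ H (fun j => τ j u)) := by
  have h := hH.subst (n := m) (h := Fin.cons (fun u => Φ.enc _ (g u)) τ) (fun i => by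
    refine Fin.cases ?_ (fun j => ?_) i
    · exact hg
    · exact hτ j)
  refine h.of_iff fun u => ?_
  show g u ∈ H (fun j => τ j u) ↔
    Φ.dec (fun i => σ i (fun j => τ j u)) (Φ.enc _ (g u)) ∈ H (fun j => τ j u)
  rw [Φ.dec_enc]

private theorem qdef {m : ℕ} (hσ : ∀ i, DFun n (σ i))
    (H : ∀ u : Fin n → ℕ, Subgroup (Φ.G (fun i => σ i u)))
    (hH : Delta0 (n + 1) (fun w => Φ.dec (fun i => σ i (fun j => w j.succ)) (w 0) ∈
      H (fun j => w j.succ)))
    {τ : Fin n → (Fin m → ℕ) → ℕ} (hτ : ∀ j, DFun m (τ j))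
    {p : ∀ u : Fin m → ℕ, Φ.G (fun i => σ i (fun j => τ j u))}
    (hp : DFun m (fun u => Φ.enc _ (p u))) :
    DFun m (fun u => qenc Φ H (fun j => τ j u) (QuotientGroup.mk (p u))) := by
  have hs : ∀ i, DFun m (fun u : Fin m → ℕ => σ i (fun j => τ j u)) :=
    fun i => (hσ i).comp hτ
  have hs1 : ∀ i, DFun (m + 1) (fun w : Fin (m + 1) → ℕ => σ i (fun j => τ j fun k => w k.succ)) :=
    fun i => (hs i).weak
  have hs2 : ∀ i, DFun (m + 1 + 1)
      (fun w : Fin (m + 1 + 1) → ℕ => σ i (fun j => τ j fun k => w k.succ.succ)) :=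
    fun i => (hs1 i).weak
  have ht1 : ∀ j, DFun (m + 1) (fun w : Fin (m + 1) → ℕ => τ j fun k => w k.succ) :=
    fun j => (hτ j).weak
  have ht2 : ∀ j, DFun (m + 1 + 1) (fun w : Fin (m + 1 + 1) → ℕ => τ j fun k => w k.succ.succ) :=
    fun j => (ht1 j).weak
  have hp1 : DFun (m + 1) (fun w : Fin (m + 1) → ℕ => Φ.enc _ (p fun k => w k.succ)) := hp.weak
  have hp2 : DFun (m + 1 + 1) (fun w : Fin (m + 1 + 1) → ℕ => Φ.enc _ (p fun k => w k.succ.succ)) :=
    hp1.weak
  have a1 : Delta0 (m + 1) (fun w : Fin (m + 1) → ℕ =>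
      ((∃ g, Φ.enc (fun i => σ i (fun j => τ j fun k => w k.succ)) g = w 0) ∧
        (p fun k => w k.succ)⁻¹ * Φ.dec _ (w 0) ∈ H (fun j => τ j fun k => w k.succ))) :=
    (Φ.gmem hs1 (DFun.proj 0)).and (gin Φ H hH ht1
      (Φ.gmul hs1 (Φ.ginv hs1 hp1) (Φ.gdec hs1 (DFun.proj 0))))
  have a2 : Delta0 (m + 1 + 1) (fun w : Fin (m + 1 + 1) → ℕ =>
      ((∃ g, Φ.enc (fun i => σ i (fun j => τ j fun k => w k.succ.succ)) g = w 0) ∧
        (p fun k => w k.succ.succ)⁻¹ * Φ.dec _ (w 0) ∈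
          H (fun j => τ j fun k => w k.succ.succ))) :=
    (Φ.gmem hs2 (DFun.proj 0)).and (gin Φ H hH ht2
      (Φ.gmul hs2 (Φ.ginv hs2 hp2) (Φ.gdec hs2 (DFun.proj 0))))
  have a3 : Delta0 (m + 1) (fun w : Fin (m + 1) → ℕ => ∀ y, y ≤ w 0 → (y < w 0 →
      ¬ ((∃ g, Φ.enc (fun i => σ i (fun j => τ j fun k => w k.succ)) g = y) ∧
        (p fun k => w k.succ)⁻¹ * Φ.dec _ y ∈ H (fun j => τ j fun k => w k.succ)))) := by
    refine Delta0.ballFun (b := fun w : Fin (m + 1) → ℕ => w 0)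
      (P := fun y w => y < w 0 →
        ¬ ((∃ g, Φ.enc (fun i => σ i (fun j => τ j fun k => w k.succ)) g = y) ∧
        (p fun k => w k.succ)⁻¹ * Φ.dec _ y ∈ H (fun j => τ j fun k => w k.succ)))
      (DFun.proj 0) ?_
    exact (Delta0.ltFun (DFun.proj 0) (DFun.proj (n := m + 1 + 1) (Fin.succ 0))).imp a2.not
  refine DFun.ofGraph (b := fun u => Φ.N (fun i => σ i (fun j => τ j u))) (Φ.hN.comp hs)
    (fun u => ?_) ((a1.and a3).of_iff fun w => ?_)
  · obtain ⟨g, -, hg⟩ := qenc_spec Φ H (fun j => τ j u) (QuotientGroup.mk (p u))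
    rw [← hg]
    exact Φ.bd _ _
  · exact eq_qenc Φ H (fun j => τ j fun k => w k.succ) (p fun k => w k.succ) (w 0)

/-- Quotients by a definable family of normal subgroups of a family with definable products form a
family with definable products. -/
noncomputable def quo (hσ : ∀ i, DFun n (σ i)) (H : ∀ u : Fin n → ℕ, Subgroup (Φ.G (fun i => σ i u)))
    (hnor : ∀ u, (H u).Normal)
    (hH : Delta0 (n + 1) (fun w => Φ.dec (fun i => σ i (fun j => w j.succ)) (w 0) ∈
      H (fun j => w j.succ))) : GFam n where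
  G u := Φ.G (fun i => σ i u) ⧸ H u
  grp u := @QuotientGroup.Quotient.group _ _ (H u) (hnor u)
  enc u x := qenc Φ H u x
  inj u x y h := by
    obtain ⟨g, hg, hg'⟩ := qenc_spec Φ H u x
    obtain ⟨k, hk, hk'⟩ := qenc_spec Φ H u y
    have e : g = k := Φ.inj _ (by rw [hg', hk']; exact h)
    rw [← hg, ← hk, e]
  N u := Φ.N (fun i => σ i u)
  hN := Φ.hN.comp hσ
  bd u x := by
    obtain ⟨g, -, hg⟩ := qenc_spec Φ H u x
    show qenc Φ H u x ≤ _
    rw [← hg]
    exact Φ.bd _ _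
  mem := by
    have hs1 : ∀ i, DFun (n + 1) (fun w : Fin (n + 1) → ℕ => σ i (fun j => w j.succ)) :=
      fun i => (hσ i).weak
    have h1 := Φ.gmem hs1 (DFun.proj (n := n + 1) 0)
    have h2 := qdef Φ hσ H hH (m := n + 1) (τ := fun j w => w j.succ)
      (fun j => DFun.proj j.succ) (p := fun w => Φ.dec _ (w 0)) (Φ.gdec hs1 (DFun.proj 0))
    refine (h1.and (Delta0.eqFun (DFun.proj (n := n + 1) 0) h2)).of_iff fun w => ?_
    constructor
    · rintro ⟨x, hx⟩
      obtain ⟨g, hg, hg'⟩ := qenc_spec Φ H _ x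
      have e : Φ.enc _ g = w 0 := hg'.trans hx
      refine ⟨⟨g, e⟩, ?_⟩
      rw [← e, Φ.dec_enc, hg]
      exact hg'
    · rintro ⟨-, h⟩
      exact ⟨_, h.symm⟩
  prod1 := by
    intro m τ P L M hτ hP hL hM hLM
    have hs : ∀ i, DFun m (fun u : Fin m → ℕ => σ i (fun j => τ j u)) :=
      fun i => (hσ i).comp hτ
    have e1 : ∀ (u : Fin m → ℕ) (i : ℕ),
        Φ.enc (fun i => σ i (fun j => τ j u))
          (Φ.dec (fun i => σ i (fun j => τ j u)) (qenc Φ H (fun j => τ j u) (P u i))) =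
          qenc Φ H (fun j => τ j u) (P u i) := by
      intro u i
      obtain ⟨g, -, hg⟩ := qenc_spec Φ H (fun j => τ j u) (P u i)
      exact Φ.enc_dec ⟨g, hg⟩
    have e2 : ∀ (u : Fin m → ℕ) (i : ℕ),
        (QuotientGroup.mk
          (Φ.dec (fun i => σ i (fun j => τ j u)) (qenc Φ H (fun j => τ j u) (P u i))) :
          Φ.G (fun i => σ i (fun j => τ j u)) ⧸ H (fun j => τ j u)) = P u i := by
      intro u i
      obtain ⟨g, hg, hg'⟩ := qenc_spec Φ H (fun j => τ j u) (P u i)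
      rw [← hg', Φ.dec_enc, hg]
    have h := Φ.prod1 (σ := fun i u => σ i (fun j => τ j u))
      (P := fun u i => Φ.dec _ (qenc Φ H (fun j => τ j u) (P u i)))
      hs (by
        have h3 : (fun w : Fin (m + 1) → ℕ => Φ.enc _ (Φ.dec _
            (qenc Φ H (fun j => τ j fun k => w k.succ) (P (fun k => w k.succ) (w 0))))) =
            fun w => qenc Φ H (fun j => τ j fun k => w k.succ) (P (fun k => w k.succ) (w 0)) :=
          funext fun w => e1 _ _
        rw [h3]
        exact hP) hL hM hLM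
    have h4 := qdef Φ hσ H hH hτ (p := fun u => ((List.range (L u)).map fun i =>
      Φ.dec _ (qenc Φ H (fun j => τ j u) (P u i))).prod) h
    have h5 : (fun u => qenc Φ H (fun j => τ j u) (QuotientGroup.mk ((List.range (L u)).map fun i =>
        Φ.dec _ (qenc Φ H (fun j => τ j u) (P u i))).prod)) = fun u =>
        qenc Φ H (fun j => τ j u) (letI := hnor (fun j => τ j u);
          ((List.range (L u)).map fun i => P u i).prod) := by
      funext u
      letI := hnor (fun j => τ j u)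
      congr 1
      have h6 := map_list_prod (QuotientGroup.mk' (H (fun j => τ j u)))
        ((List.range (L u)).map fun i => Φ.dec _ (qenc Φ H (fun j => τ j u) (P u i)))
      rw [List.map_map] at h6
      refine h6.trans ?_
      congr 1
      refine List.map_congr_left fun i _ => ?_
      exact e2 u i
    rw [h5] at h4
    exact h4

end Pool.Agent.OrdG
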