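import Pool.Agent.OrdG.Defs
import Pool.Agent.ApC.OrdProj
import Pool.Agent.ECD.GOrd

/-!
# Package OrdG-StDef: the subgroups `OL l G` and `OP l G` are definable

`Φ` a family of groups with definable products, `l` definable with prime values. `x ∈ OL l G` iff for
all codes `z ≤ Φ.N` of elements `t` (`Φ.gall` or `Φ.gex`, `Φ.gdec` in `ECD/GTools.lean`): `x * t ∈ EL` iff
`t ∈ EL`. `t ∈ EL l G` iff `orderOf t` is a power of `l`: `Φ.gord` (`ECD/GOrd.lean`) and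
`Pool.Agent.ApC.lpow_def`; `t ∈ EP l G` iff `l ∤ orderOf t`: `Φ.gord`, `delta_dvd`
(`ECD/GPowA.lean`). Write first two general lemmas: for definable `g : ∀ u, Φ.G (σ u)` the relations
`g u ∈ EL (l u) _`, `g u ∈ EP (l u) _` are `Delta0`.

Difficulty: 0.7 h.
-/

set_option autoImplicit false

namespace Pool.Agent.OrdG

open Finset Pool.Agent.Grz Pool.Agent.GAvg Pool.Agent.PTr Pool.Agent.MTr Pool.Agent.LPC
  Pool.Agent.ECD

variable {r n : ℕ} (Φ : GFam r) {σ : Fin r → (Fin n → ℕ) → ℕ} {l : (Fin n → ℕ) → ℕ}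

private theorem el_aux (hσ : ∀ i, DFun n (σ i)) (hl : DFun n l) (hp : ∀ u, (l u).Prime)
    {g : ∀ u : Fin n → ℕ, Φ.G (fun i => σ i u)} (hg : DFun n (fun u => Φ.enc _ (g u))) :
    Delta0 n (fun u => g u ∈ EL (l u) (Φ.G (fun i => σ i u))) :=
  (Pool.Agent.ApC.lpow_def hl (Φ.gord hσ hg)).of_iff fun u =>
    ⟨fun h => ⟨hp u, h⟩, fun h => h.2⟩

private theorem ep_aux (hσ : ∀ i, DFun n (σ i)) (hl : DFun n l)
    {g : ∀ u : Fin n → ℕ, Φ.G (fun i => σ i u)} (hg : DFun n (fun u => Φ.enc _ (g u))) :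
    Delta0 n (fun u => g u ∈ EP (l u) (Φ.G (fun i => σ i u))) :=
  (delta_dvd hl (Φ.gord hσ hg)).not.of_iff fun _ => Iff.rfl

private theorem st_aux (hσ : ∀ i, DFun n (σ i)) (hl : DFun n l)
    (T : (l : ℕ) → (G : Type) → [Group G] → Set G)
    (hT : ∀ (m : ℕ) (τ : Fin r → (Fin m → ℕ) → ℕ) (k : (Fin m → ℕ) → ℕ), (∀ i, DFun m (τ i)) →
      DFun m k → (∀ w, ∃ u, k w = l u) → ∀ g : ∀ u : Fin m → ℕ, Φ.G (fun i => τ i u),
      DFun m (fun u => Φ.enc _ (g u)) → Delta0 m (fun u => g u ∈ T (k u) (Φ.G (fun i => τ i u)))) :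
    Delta0 (n + 1) (fun w => Φ.dec (fun i => σ i (fun j => w j.succ)) (w 0) ∈
      St (T (l fun j => w j.succ) (Φ.G (fun i => σ i (fun j => w j.succ))))) := by
  have hσ1 : ∀ i, DFun (n + 1) (fun w => σ i (fun j => w j.succ)) := fun i => (hσ i).weak
  have hσ2 : ∀ i, DFun (n + 1 + 1) (fun w => σ i (fun j => w j.succ.succ)) :=
    fun i => (hσ i).weak.weak
  have hl2 : DFun (n + 1 + 1) (fun w => l (fun j => w j.succ.succ)) := hl.weak.weak
  have h1 : Delta0 (n + 1 + 1) (fun w => Φ.dec (fun i => σ i (fun j => w j.succ.succ)) (w 1) *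
      Φ.dec (fun i => σ i (fun j => w j.succ.succ)) (w 0) ∈
      T (l fun j => w j.succ.succ) (Φ.G (fun i => σ i (fun j => w j.succ.succ)))) :=
    hT _ (fun i w => σ i (fun j => w j.succ.succ)) _ hσ2 hl2 (fun w => ⟨_, rfl⟩) _
      (Φ.gmul hσ2 (Φ.gdec hσ2 (DFun.proj 1)) (Φ.gdec hσ2 (DFun.proj 0)))
  have h2 : Delta0 (n + 1 + 1) (fun w =>
      Φ.dec (fun i => σ i (fun j => w j.succ.succ)) (w 0) ∈
      T (l fun j => w j.succ.succ) (Φ.G (fun i => σ i (fun j => w j.succ.succ)))) :=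
    hT _ (fun i w => σ i (fun j => w j.succ.succ)) _ hσ2 hl2 (fun w => ⟨_, rfl⟩) _
      (Φ.gdec hσ2 (DFun.proj 0))
  refine (Φ.gall hσ1 (A := fun w t => Φ.dec (fun i => σ i (fun j => w j.succ)) (w 0) * t ∈
      T (l fun j => w j.succ) (Φ.G (fun i => σ i (fun j => w j.succ))) ↔
      t ∈ T (l fun j => w j.succ) (Φ.G (fun i => σ i (fun j => w j.succ)))) ?_).of_iff
    fun w => Iff.rfl
  exact ((h1.imp h2).and (h2.imp h1)).of_iff fun w => iff_def

theorem ol_def (hσ : ∀ i, DFun n (σ i)) (hl : DFun n l) (hp : ∀ u, (l u).Prime) :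
    Delta0 (n + 1) (fun w => Φ.dec (fun i => σ i (fun j => w j.succ)) (w 0) ∈
      OL (l fun j => w j.succ) (Φ.G (fun i => σ i (fun j => w j.succ)))) :=
  st_aux Φ hσ hl EL fun _ _ _ hτ hk hkl _ hg => el_aux Φ hτ hk (fun w => by
    obtain ⟨u, hu⟩ := hkl w
    rw [hu]
    exact hp u) hg

theorem op_def (hσ : ∀ i, DFun n (σ i)) (hl : DFun n l) (hp : ∀ u, (l u).Prime) :
    Delta0 (n + 1) (fun w => Φ.dec (fun i => σ i (fun j => w j.succ)) (w 0) ∈
      OP (l fun j => w j.succ) (Φ.G (fun i => σ i (fun j => w j.succ)))) :=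
  st_aux Φ hσ hl EP fun _ _ _ hτ hk _ _ hg => ep_aux Φ hτ hk hg

end Pool.Agent.OrdG
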