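import Pool.Agent.OrdG.PartEq
import Pool.Agent.OrdG.Quo
import Pool.Agent.OrdG.StDef
import Pool.Agent.OrdG.Base
import Pool.Agent.ApC.Card
import Pool.Agent.ApC.Sub

/-!
# Package OrdG-LStep: the `l`-part of the order is definable

*Proof.* Induction on `s` (generalise `Φ`). `s = 0`: `base_def`. `s + 1`: let
`Φ₁ = quo Φ (OP (l u) _)` (`σ = fun i v => v i`, `op_def`), `Φ₂ = quo Φ₁ (OL (l u) _)` (`ol_def`). By
`part_eq` the function is the product of `#(OL (l u) (Φ₁.G u))`, which is definable by `card_nil`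
(`ApC/Card.lean`) for the family `sub Φ₁ (OL (l u) _)` (`ApC/Sub.lean`; `l`-groups are nilpotent:
`ol_pgroup`, `IsPGroup.isNilpotent`), and the same function for `Φ₂` (induction hypothesis). ∎

Difficulty: 0.7 h.
-/

set_option autoImplicit false

namespace Pool.Agent.OrdG

open Finset Pool.Agent.Grz Pool.Agent.GAvg Pool.Agent.PTr Pool.Agent.MTr Pool.Agent.LPC
  Pool.Agent.ECD

theorem lpart_ll (R s : ℕ) {n : ℕ} (Φ : GFam n) {l : (Fin n → ℕ) → ℕ} (hl : DFun n l)
    (hp : ∀ u, (l u).Prime) (h : ∀ u, LL R (l u) s (Φ.G u)) :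
    DFun n (fun u => l u ^ (Nat.card (Φ.G u)).factorization (l u)) := by
  induction s generalizing Φ with
  | zero => exact base_def Φ hl hp R h
  | succ s ih =>
    have hσ : ∀ i : Fin n, DFun n (fun v : Fin n → ℕ => v i) := fun i => DFun.proj i
    have ho := op_def Φ hσ hl hp
    let Φ₁ : GFam n := quo Φ hσ (fun u => OP (l u) (Φ.G u)) (fun u => OP_normal _ _) ho
    have hn := ol_def Φ₁ hσ hl hp
    let Φ₂ : GFam n := quo Φ₁ hσ (fun u => OL (l u) (Φ₁.G u)) (fun u => OL_normal _ _) hn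
    let Φ₃ : GFam n := Pool.Agent.ApC.sub Φ₁ hσ (fun u => OL (l u) (Φ₁.G u)) hn
    have h1 : DFun n (fun u => Nat.card (Φ₃.G u)) := by
      refine Pool.Agent.ApC.card_nil Φ₃ (fun v => ?_) hσ
      have hf : Fact (l v).Prime := ⟨hp v⟩
      have hfin : Finite (OL (l v) (Φ₁.G v)) := inferInstance
      exact IsPGroup.isNilpotent (ol_pgroup (G := Φ₁.G v) (hp v))
    have h2 : DFun n (fun u => l u ^ (Nat.card (Φ₂.G u)).factorization (l u)) :=
      ih Φ₂ (fun u => h u)
    have e : (fun u => l u ^ (Nat.card (Φ.G u)).factorization (l u)) =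
        fun u => Nat.card (Φ₃.G u) * l u ^ (Nat.card (Φ₂.G u)).factorization (l u) :=
      funext fun u => part_eq (hp u) (G := Φ.G u)
    rw [e]
    exact h1.mul h2

end Pool.Agent.OrdG
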