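import Pool.Agent.OrdG.GrpA

/-!
# Package OrdG-PartEq: the `l`-part of the order, two steps down

*Proof.* `#G = #(OP l G) * #(Q1 l G)` and `l ∤ #(OP l G)`, `#(Q1 l G) = #(OL l (Q1 l G)) * #(Q2 l G)`, and
`#(OL l (Q1 l G))` is a power of `l` (`ol_pgroup`, `IsPGroup.iff_card`);
`Subgroup.card_eq_card_quotient_mul_card_subgroup`, `Nat.factorization_mul`,
`Nat.factorization_eq_zero_of_not_dvd`. ∎

Difficulty: 0.4 h.
-/

set_option autoImplicit false

namespace Pool.Agent.OrdG

open Pool.Agent.ECD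

theorem part_eq {l : ℕ} (hl : l.Prime) {G : Type} [Group G] [Finite G] :
    l ^ (Nat.card G).factorization l =
      Nat.card (OL l (Q1 l G)) * l ^ (Nat.card (Q2 l G)).factorization l := by
  have : Fact l.Prime := ⟨hl⟩
  have h1 : Nat.card G = Nat.card (Q1 l G) * Nat.card (OP l G) :=
    Subgroup.card_eq_card_quotient_mul_card_subgroup (OP l G)
  have h2 : Nat.card (Q1 l G) = Nat.card (Q2 l G) * Nat.card (OL l (Q1 l G)) :=
    Subgroup.card_eq_card_quotient_mul_card_subgroup (OL l (Q1 l G))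
  obtain ⟨k, hk⟩ := IsPGroup.iff_card.mp (ol_pgroup (G := Q1 l G) hl)
  have p1 : Nat.card (OP l G) ≠ 0 := Nat.card_pos.ne'
  have p2 : Nat.card (Q2 l G) ≠ 0 := Nat.card_pos.ne'
  have f1 : (Nat.card (OP l G)).factorization l = 0 :=
    Nat.factorization_eq_zero_of_not_dvd (op_card hl)
  have f2 : (l ^ k).factorization l = k := by
    rw [hl.factorization_pow, Finsupp.single_eq_same]
  have p3 : l ^ k ≠ 0 := pow_ne_zero k hl.ne_zero
  rw [h1, h2, hk, Nat.factorization_mul (mul_ne_zero p2 p3) p1, Nat.factorization_mul p2 p3,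
    Finsupp.add_apply, Finsupp.add_apply, f1, f2, add_zero, pow_add, mul_comm]

end Pool.Agent.OrdG
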